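import Pool.Agent.H49.MV.NavierCone

/-!
Navier-type versus whole-space critical biharmonic Sobolev constant on cones.

For every dimension `n ≥ 5` and every nonempty relatively open subset `S` of the unit sphere
the best constant over `C²(closure of the cone)` functions vanishing on the boundary, near `0`
and near infinity equals the whole-space constant `S**` over `D²(ℝⁿ)`.
-/

open MeasureTheory InnerProductSpace Laplacian Filter Topology

open scoped ContDiff

namespace Pool.Agent.Results.MP_462b8b_an.NavierCone

open Pool.H49.MV.NavierCone

/-- **Main theorem.** For every `n ≥ 5` and every nonempty relatively open subset `S` of the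
unit sphere of `ℝⁿ` (in particular every domain of class `C²`, proper or not) the Navier-type
critical biharmonic Sobolev constant of the cone over `S` equals the whole-space constant. -/
theorem result (n : ℕ) (hn : 5 ≤ n) (S : Set (E n)) (hne : S.Nonempty)
    (hS : ∃ O : Set (E n), IsOpen O ∧ S = O ∩ Metric.sphere (0 : E n) 1) :
    navierConst n (cone S) = Sstar n :=
  Pool.H49.MV.NavierCone.result n hn S hne hS

end Pool.Agent.Results.MP_462b8b_an.NavierCone
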